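import Mathlib

/-! Coverings of the plane by non-overlapping arcs: the definitions used in the statement. -/

set_option autoImplicit false

namespace Pool.Agent.V11192.Arcs

open MeasureTheory Set Topology
open scoped ENNReal

/-- the Euclidean plane -/
abbrev Plane := EuclideanSpace ℝ (Fin 2)

/-- `γ` restricted to `I` parametrises a differentiable arc: `I` is a nondegenerate interval, `γ` is
a homeomorphism of `I` onto its image, differentiable on `I` (one-sidedly at the endpoints that
belong to `I`) with non-zero derivative. The arc is the set `γ '' I`. -/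
structure IsDiffArc (I : Set ℝ) (γ : ℝ → Plane) : Prop where
  ordConnected : I.OrdConnected
  nontrivial : I.Nontrivial
  isEmbedding : IsEmbedding (I.domRestrict γ)
  differentiableOn : DifferentiableOn ℝ γ I
  derivWithin_ne_zero : ∀ t ∈ I, derivWithin γ I t ≠ 0

/-- The limit points of the two ends of the arc `γ '' I`. -/
def IsEndpoint (I : Set ℝ) (γ : ℝ → Plane) (e : Plane) : Prop :=
  (∀ t ∈ I, e ∈ closure (γ '' (I ∩ Iic t))) ∨ (∀ t ∈ I, e ∈ closure (γ '' (I ∩ Ici t)))

/-- A covering of the plane by non-overlapping (pairwise disjoint) differentiable rectifiable arcs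
`γ i '' I i`, each of length at least `δ`. -/
structure IsArcCovering {ι : Type} (I : ι → Set ℝ) (γ : ι → ℝ → Plane) (δ : ℝ) : Prop where
  isDiffArc : ∀ i, IsDiffArc (I i) (γ i)
  rectifiable : ∀ i, eVariationOn (γ i) (I i) ≠ ⊤
  length_ge : ∀ i, ENNReal.ofReal δ ≤ eVariationOn (γ i) (I i)
  disjoint : Pairwise fun i j => Disjoint (γ i '' I i) (γ j '' I j)
  cover : ⋃ i, γ i '' I i = univ

/-- The angle between the lines spanned by two non-zero vectors. -/
noncomputable def lineAngle (u v : Plane) : ℝ :=
  min (InnerProductGeometry.angle u v) (InnerProductGeometry.angle u (-v))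

/-- The covering is smooth at `x`: for every `ε > 0` there is an open neighbourhood of `x` which
contains no endpoint of an arc of the covering and in which the directions of any two tangent lines
differ by less than `ε`. -/
def SmoothAt {ι : Type} (I : ι → Set ℝ) (γ : ι → ℝ → Plane) (x : Plane) : Prop :=
  ∀ ε > 0, ∃ N : Set Plane, IsOpen N ∧ x ∈ N ∧ (∀ i, ∀ e ∈ N, ¬ IsEndpoint (I i) (γ i) e) ∧
    ∀ i j, ∀ s ∈ I i, ∀ t ∈ I j, γ i s ∈ N → γ j t ∈ N →
      lineAngle (derivWithin (γ i) (I i) s) (derivWithin (γ j) (I j) t) < ε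

end Pool.Agent.V11192.Arcs
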