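import Pool.Agent.V11192.Arcs.Defs

/-! A covering of the plane by non-overlapping analytic arcs which is not smooth on a set of
positive measure. -/

set_option autoImplicit false

namespace Pool.Agent.V11192.Arcs

open MeasureTheory Set Topology
open scoped ENNReal ContDiff

/-- a closed set with empty interior and small complement -/
theorem exists_fat : ∃ K : Set ℝ, IsClosed K ∧ interior K = ∅ ∧ volume Kᶜ < 1 := by
  have h0 : volume (range ((↑) : ℚ → ℝ)) = 0 := (countable_range _).measure_zero _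
  obtain ⟨U, hU, hUo, hUv⟩ := (range ((↑) : ℚ → ℝ)).exists_isOpen_lt_of_lt 1
    (by rw [h0]; exact one_pos)
  refine ⟨Uᶜ, hUo.isClosed_compl, ?_, by rwa [compl_compl]⟩
  rw [interior_compl, compl_empty_iff]
  exact (Rat.denseRange_cast.mono hU).closure_eq

section

variable {K : Set ℝ}

/-- left end of the gap -/
noncomputable def lft (K : Set ℝ) (c : ℝ) : ℝ := sSup (K ∩ Iic c)

/-- right end of the gap -/
noncomputable def rgt (K : Set ℝ) (c : ℝ) : ℝ := sInf (K ∩ Ici c)

theorem meets (hv : volume Kᶜ < 1) (a : ℝ) : ∃ k ∈ K, a ≤ k ∧ k ≤ a + 1 := by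
  by_contra hcon
  push Not at hcon
  have h1 : Icc a (a + 1) ⊆ Kᶜ := by
    intro x hx hxK
    exact absurd hx.2 (not_le.2 (hcon x hxK hx.1))
  have h2 := measure_mono h1 (μ := volume)
  rw [Real.volume_Icc, add_sub_cancel_left, ENNReal.ofReal_one] at h2
  exact absurd hv (not_lt.2 h2)

theorem lft_mem (hK : IsClosed K) (hv : volume Kᶜ < 1) (c : ℝ) : lft K c ∈ K ∩ Iic c := by
  obtain ⟨k, hk, h1, h2⟩ := meets hv (c - 1)
  exact (hK.inter isClosed_Iic).csSup_mem ⟨k, hk, by simpa using h2⟩ ⟨c, fun x hx => hx.2⟩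

theorem rgt_mem (hK : IsClosed K) (hv : volume Kᶜ < 1) (c : ℝ) : rgt K c ∈ K ∩ Ici c := by
  obtain ⟨k, hk, h1, h2⟩ := meets hv c
  exact (hK.inter isClosed_Ici).csInf_mem ⟨k, hk, h1⟩ ⟨c, fun x hx => hx.2⟩

theorem le_lft (c : ℝ) {k : ℝ} (hk : k ∈ K) (hkc : k ≤ c) : k ≤ lft K c :=
  le_csSup ⟨c, fun _ hx => hx.2⟩ ⟨hk, hkc⟩

theorem rgt_le (c : ℝ) {k : ℝ} (hk : k ∈ K) (hkc : c ≤ k) : rgt K c ≤ k :=
  csInf_le ⟨c, fun _ hx => hx.2⟩ ⟨hk, hkc⟩

theorem lft_eq (hK : IsClosed K) (hv : volume Kᶜ < 1) {c : ℝ} (hc : c ∈ K) : lft K c = c :=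
  le_antisymm (lft_mem hK hv c).2 (le_lft c hc le_rfl)

theorem rgt_eq (hK : IsClosed K) (hv : volume Kᶜ < 1) {c : ℝ} (hc : c ∈ K) : rgt K c = c :=
  le_antisymm (rgt_le c hc le_rfl) (rgt_mem hK hv c).2

/-- the gap is constant on the gap -/
theorem gap_eq (hK : IsClosed K) (hv : volume Kᶜ < 1) {c d : ℝ} (h1 : lft K c < d)
    (h2 : d < rgt K c) : lft K d = lft K c ∧ rgt K d = rgt K c := by
  have hl := lft_mem hK hv c
  have hr := rgt_mem hK hv c
  have hno : ∀ k ∈ K, ¬ (lft K c < k ∧ k < rgt K c) := by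
    rintro k hk ⟨h3, h4⟩
    rcases le_total k c with h | h
    · exact absurd (le_lft c hk h) (not_le.2 h3)
    · exact absurd (rgt_le c hk h) (not_le.2 h4)
  have hl' := lft_mem hK hv d
  have hr' := rgt_mem hK hv d
  constructor
  · refine le_antisymm ?_ (le_lft d hl.1 h1.le)
    by_contra h
    push Not at h
    exact hno _ hl'.1 ⟨h, lt_of_le_of_lt hl'.2 h2⟩
  · refine le_antisymm (rgt_le d hr.1 h2.le) ?_
    by_contra h
    push Not at h
    exact hno _ hr'.1 ⟨lt_of_lt_of_le h1 hr'.2, h⟩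

/-- width of the gap -/
noncomputable def wid (K : Set ℝ) (c : ℝ) : ℝ := rgt K c - lft K c

/-- amplitude -/
noncomputable def amp (K : Set ℝ) (c : ℝ) : ℝ := (c - lft K c) * (rgt K c - c) / (2 * wid K c)

/-- the leaves -/
noncomputable def leaf (K : Set ℝ) (c x : ℝ) : ℝ := c + amp K c * Real.sin (x / wid K c)

theorem leaf_of_mem (hK : IsClosed K) (hv : volume Kᶜ < 1) {c : ℝ} (hc : c ∈ K) (x : ℝ) :
    leaf K c x = c := by
  simp [leaf, amp, lft_eq hK hv hc]

/-- the leaf function in a fixed gap -/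
theorem quad_mono {l r s : ℝ} (hlr : l < r) (hs : |s| ≤ 1) {c d : ℝ} (hc : l ≤ c) (hcd : c < d)
    (hd : d ≤ r) : c + (c - l) * (r - c) / (2 * (r - l)) * s <
      d + (d - l) * (r - d) / (2 * (r - l)) * s := by
  have hw : 0 < r - l := sub_pos.2 hlr
  obtain ⟨hs1, hs2⟩ := abs_le.1 hs
  have h1 : (d - l) * (r - d) / (2 * (r - l)) * s - (c - l) * (r - c) / (2 * (r - l)) * s =
      (d - c) * ((r + l - c - d) * s / (2 * (r - l))) := by
    field_simp
    ring
  have h2 : |(r + l - c - d) * s / (2 * (r - l))| ≤ 1 / 2 := by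
    rw [abs_div, abs_mul, abs_of_pos (show (0:ℝ) < 2 * (r - l) by linarith),
      div_le_div_iff₀ (by linarith) two_pos]
    have h3 : |r + l - c - d| ≤ r - l := by
      rw [abs_le]; constructor <;> linarith
    have h4 : |r + l - c - d| * |s| ≤ (r - l) * 1 :=
      mul_le_mul h3 hs (abs_nonneg _) hw.le
    linarith
  have h5 := (abs_le.1 h2).1
  have h6 : (d - c) * (-(1/2)) ≤ (d - c) * ((r + l - c - d) * s / (2 * (r - l))) :=
    mul_le_mul_of_nonneg_left (by linarith) (by linarith)
  linarith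

theorem leaf_mem_gap (hK : IsClosed K) (hv : volume Kᶜ < 1) (c x : ℝ) :
    lft K c ≤ leaf K c x ∧ leaf K c x ≤ rgt K c ∧ (c ∉ K → lft K c < leaf K c x ∧
      leaf K c x < rgt K c) := by
  by_cases hc : c ∈ K
  · rw [leaf_of_mem hK hv hc, lft_eq hK hv hc, rgt_eq hK hv hc]
    exact ⟨le_rfl, le_rfl, fun h => absurd hc h⟩
  · have hl := lft_mem hK hv c
    have hr := rgt_mem hK hv c
    have hlc : lft K c < c := lt_of_le_of_ne hl.2 fun h => hc (h ▸ hl.1)
    have hcr : c < rgt K c := lt_of_le_of_ne hr.2 fun h => hc (h ▸ hr.1)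
    have h1 := quad_mono (s := Real.sin (x / wid K c)) (hlc.trans hcr) (Real.abs_sin_le_one _)
      le_rfl hlc hcr.le
    have h2 := quad_mono (s := Real.sin (x / wid K c)) (hlc.trans hcr) (Real.abs_sin_le_one _)
      hlc.le hcr le_rfl
    simp only [sub_self, zero_mul, zero_div, add_zero, mul_zero] at h1 h2
    exact ⟨h1.le, h2.le, fun _ => ⟨h1, h2⟩⟩

theorem leaf_injective (hK : IsClosed K) (hv : volume Kᶜ < 1) (x : ℝ) :
    Function.Injective fun c => leaf K c x := by
  intro c d hcd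
  simp only at hcd
  by_cases hc : c ∈ K
  · rw [leaf_of_mem hK hv hc] at hcd
    by_cases hd : d ∈ K
    · rwa [leaf_of_mem hK hv hd] at hcd
    · exfalso
      obtain ⟨h1, h2⟩ := (leaf_mem_gap hK hv d x).2.2 hd
      rw [← hcd] at h1 h2
      have h3 := (gap_eq hK hv h1 h2).1
      rw [lft_eq hK hv hc] at h3
      exact h1.ne' h3
  · obtain ⟨h1, h2⟩ := (leaf_mem_gap hK hv c x).2.2 hc
    by_cases hd : d ∈ K
    · exfalso
      rw [hcd, leaf_of_mem hK hv hd] at h1 h2
      have h3 := (gap_eq hK hv h1 h2).1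
      rw [lft_eq hK hv hd] at h3
      exact h1.ne' h3
    · obtain ⟨h3, h4⟩ := (leaf_mem_gap hK hv d x).2.2 hd
      have e1 := gap_eq hK hv h1 h2
      have e2 := gap_eq hK hv h3 h4
      rw [hcd] at e1
      have el : lft K c = lft K d := e1.1.symm.trans e2.1
      have er : rgt K c = rgt K d := e1.2.symm.trans e2.2
      have hl := lft_mem hK hv c
      have hr := rgt_mem hK hv c
      have hl' := lft_mem hK hv d
      have hr' := rgt_mem hK hv d
      have hlc : lft K c < c := lt_of_le_of_ne hl.2 fun h => hc (h ▸ hl.1)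
      have hcr : c < rgt K c := lt_of_le_of_ne hr.2 fun h => hc (h ▸ hr.1)
      rcases lt_trichotomy c d with h | h | h
      · exfalso
        have := quad_mono (s := Real.sin (x / wid K c)) (hlc.trans hcr) (Real.abs_sin_le_one _)
          hl.2 h (er ▸ hr'.2)
        have e3 : leaf K c x < leaf K d x := by
          simpa only [leaf, amp, wid, el, er] using this
        exact e3.ne hcd
      · exact h
      · exfalso
        have := quad_mono (s := Real.sin (x / wid K c)) (hlc.trans hcr) (Real.abs_sin_le_one _)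
          (el ▸ hl'.2) h hr.2
        have e3 : leaf K d x < leaf K c x := by
          simpa only [leaf, amp, wid, el, er] using this
        exact e3.ne' hcd

theorem leaf_surjective (hK : IsClosed K) (hv : volume Kᶜ < 1) (x : ℝ) :
    Function.Surjective fun c => leaf K c x := by
  intro y
  by_cases hy : y ∈ K
  · exact ⟨y, leaf_of_mem hK hv hy x⟩
  · have hl := lft_mem hK hv y
    have hr := rgt_mem hK hv y
    have hly : lft K y < y := lt_of_le_of_ne hl.2 fun h => hy (h ▸ hl.1)
    have hyr : y < rgt K y := lt_of_le_of_ne hr.2 fun h => hy (h ▸ hr.1)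
    set l := lft K y
    set r := rgt K y
    set s := Real.sin (x / (r - l))
    have hcont : ContinuousOn (fun c => c + (c - l) * (r - c) / (2 * (r - l)) * s) (Icc l r) := by
      fun_prop
    have hivt := intermediate_value_Icc (hly.trans hyr).le hcont
    obtain ⟨c, hc, hcy⟩ := hivt (show y ∈ Icc _ _ by
      simp only [sub_self, zero_mul, zero_div, add_zero, mul_zero]
      exact ⟨hly.le, hyr.le⟩)
    simp only at hcy
    have hlc : l < c := by
      refine lt_of_le_of_ne hc.1 fun h => ?_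
      rw [← h] at hcy
      simp only [sub_self, zero_mul, zero_div, add_zero] at hcy
      exact hly.ne hcy
    have hcr : c < r := by
      refine lt_of_le_of_ne hc.2 fun h => ?_
      rw [h] at hcy
      simp only [sub_self, zero_mul, zero_div, add_zero, mul_zero] at hcy
      exact hyr.ne' hcy
    obtain ⟨e1, e2⟩ := gap_eq hK hv hlc hcr
    refine ⟨c, ?_⟩
    simp only [leaf, amp, wid, e1, e2]
    exact hcy

/-- the curves -/
noncomputable def crv (K : Set ℝ) (c t : ℝ) : Plane := !₂[t, leaf K c t]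

/-- the slope -/
noncomputable def slope1 (K : Set ℝ) (c t : ℝ) : ℝ :=
  amp K c * (Real.cos (t / wid K c) * (1 / wid K c))

theorem hasDerivAt_crv (c t : ℝ) :
    HasDerivAt (crv K c) (!₂[1, slope1 K c t] : Plane) t := by
  have h2 : HasDerivAt (fun s : ℝ => (![s, leaf K c s] : Fin 2 → ℝ)) ![1, slope1 K c t] t := by
    rw [hasDerivAt_pi]
    intro i
    fin_cases i
    · exact hasDerivAt_id t
    · have h1 : HasDerivAt (fun s => leaf K c s) (slope1 K c t) t := by
        have := (((hasDerivAt_id t).div_const (wid K c)).sin.const_mul (amp K c)).const_add c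
        simpa [leaf, slope1] using this
      exact h1
  exact ((PiLp.continuousLinearEquiv 2 ℝ (fun _ : Fin 2 => ℝ)).symm.hasFDerivAt).comp_hasDerivAt t h2

theorem abs_slope_le (K : Set ℝ) (c t : ℝ) : |slope1 K c t| ≤ |amp K c * (1 / wid K c)| := by
  rw [slope1, mul_left_comm, abs_mul]
  exact mul_le_of_le_one_left (abs_nonneg _) (Real.abs_cos_le_one _)

theorem continuous_crv (c : ℝ) : Continuous (crv K c) :=
  continuous_iff_continuousAt.2 fun t => (hasDerivAt_crv c t).continuousAt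

/-- index set -/
abbrev Idx := ℝ × ℤ

/-- parameter intervals -/
def ivl (i : Idx) : Set ℝ := Ico (i.2 : ℝ) (i.2 + 1)

theorem isDiffArc (K : Set ℝ) (i : Idx) : IsDiffArc (ivl i) (crv K i.1) where
  ordConnected := ordConnected_Ico
  nontrivial := by
    refine ⟨i.2, ⟨le_rfl, by linarith⟩, i.2 + 1/2, ⟨by linarith, by linarith⟩, ?_⟩
    intro h
    linarith
  isEmbedding := by
    have h1 : Continuous ((ivl i).domRestrict (crv K i.1)) :=
      (continuous_crv i.1).comp continuous_subtype_val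
    have h2 : Continuous fun p : Plane => p 0 := by fun_prop
    refine IsEmbedding.of_comp h1 h2 ?_
    exact IsEmbedding.subtypeVal
  differentiableOn := fun t _ => (hasDerivAt_crv i.1 t).differentiableAt.differentiableWithinAt
  derivWithin_ne_zero := by
    intro t ht
    have hd : derivWithin (crv K i.1) (ivl i) t = !₂[1, slope1 K i.1 t] :=
      (hasDerivAt_crv i.1 t).hasDerivWithinAt.derivWithin (uniqueDiffOn_Ico _ _ t ht)
    rw [hd]
    intro h
    have := congrArg (fun p : Plane => p 0) h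
    simp at this

theorem derivWithin_crv {i : Idx} {t : ℝ} (ht : t ∈ ivl i) :
    derivWithin (crv K i.1) (ivl i) t = !₂[1, slope1 K i.1 t] :=
  (hasDerivAt_crv i.1 t).hasDerivWithinAt.derivWithin (uniqueDiffOn_Ico _ _ t ht)

theorem isArcCovering (hK : IsClosed K) (hv : volume Kᶜ < 1) :
    IsArcCovering (ivl : Idx → Set ℝ) (fun i => crv K i.1) 1 where
  isDiffArc i := isDiffArc K i
  rectifiable i := by
    set C : ℝ := 1 + |amp K i.1 * (1 / wid K i.1)| with hC
    have hC0 : 0 ≤ C := by positivity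
    have hlip : LipschitzWith ⟨C, hC0⟩ (crv K i.1) := by
      refine lipschitzWith_of_nnnorm_deriv_le
        (fun t => (hasDerivAt_crv i.1 t).differentiableAt) fun t => ?_
      rw [(hasDerivAt_crv i.1 t).deriv, ← NNReal.coe_le_coe, coe_nnnorm, EuclideanSpace.norm_eq]
      rw [Fin.sum_univ_two]
      show Real.sqrt _ ≤ C
      rw [Real.sqrt_le_left hC0]
      have := abs_slope_le K i.1 t
      simp only [PiLp.toLp_apply, Matrix.cons_val_zero, Matrix.cons_val_one, norm_one,
        Real.norm_eq_abs, one_pow, sq_abs]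
      have h1 : slope1 K i.1 t ^ 2 ≤ |amp K i.1 * (1 / wid K i.1)| ^ 2 := by
        rw [← sq_abs (slope1 K i.1 t)]
        exact pow_le_pow_left₀ (abs_nonneg _) this 2
      rw [hC]
      nlinarith [abs_nonneg (amp K i.1 * (1 / wid K i.1))]
    have hb := hlip.lipschitzOnWith (s := Icc (i.2 : ℝ) (i.2 + 1)) |>.locallyBoundedVariationOn
      (i.2 : ℝ) (i.2 + 1) ⟨le_rfl, by linarith⟩ ⟨by linarith, le_rfl⟩
    rw [inter_self] at hb
    exact ne_top_of_le_ne_top hb (eVariationOn.mono _ Ico_subset_Icc_self)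
  length_ge i := by
    refine le_of_forall_lt fun b hb => ?_
    have hbt : b ≠ ⊤ := ne_top_of_lt hb
    have hb1 : b.toReal < 1 := by
      rw [ENNReal.ofReal_one] at hb
      rw [← ENNReal.toReal_one]
      exact (ENNReal.toReal_lt_toReal hbt ENNReal.one_ne_top).2 hb
    obtain ⟨u, hu1, hu2⟩ := exists_between hb1
    have hu0 : 0 < u := lt_of_le_of_lt ENNReal.toReal_nonneg hu1
    have h1 : edist (crv K i.1 (i.2 : ℝ)) (crv K i.1 (i.2 + u)) ≤ eVariationOn (crv K i.1) (ivl i) :=
      eVariationOn.edist_le _ ⟨le_rfl, by linarith⟩ ⟨by linarith, by linarith⟩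
    refine lt_of_lt_of_le ?_ h1
    rw [← ENNReal.ofReal_toReal hbt, edist_dist]
    refine (ENNReal.ofReal_lt_ofReal_iff_of_nonneg ENNReal.toReal_nonneg).2 (hu1.trans_le ?_)
    have h2 := PiLp.norm_apply_le (p := 2) (crv K i.1 (i.2 : ℝ) - crv K i.1 (i.2 + u)) 0
    rw [dist_eq_norm]
    refine le_trans ?_ h2
    simp only [crv, PiLp.sub_apply, PiLp.toLp_apply, Matrix.cons_val_zero]
    rw [Real.norm_eq_abs, abs_sub_comm, add_sub_cancel_left, abs_of_pos hu0]
  disjoint := by
    rintro ⟨c, k⟩ ⟨d, m⟩ hne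
    rw [Set.disjoint_left]
    rintro _ ⟨s, hs, rfl⟩ ⟨t, ht, hst⟩
    apply hne
    have h0 := congrArg (fun p : Plane => p 0) hst
    have h1 := congrArg (fun p : Plane => p 1) hst
    simp only [crv, PiLp.toLp_apply, Matrix.cons_val_zero, Matrix.cons_val_one] at h0 h1
    subst h0
    have hcd : d = c := leaf_injective hK hv t h1
    have hkm : k = m := by
      have e1 : ⌊t⌋ = k := Int.floor_eq_iff.2 hs
      have e2 : ⌊t⌋ = m := Int.floor_eq_iff.2 ht
      rw [← e1, e2]
    rw [hcd, hkm]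
  cover := by
    rw [eq_univ_iff_forall]
    intro p
    obtain ⟨c, hc⟩ := leaf_surjective hK hv (p 0) (p 1)
    refine mem_iUnion.2 ⟨(c, ⌊p 0⌋), p 0, ⟨Int.floor_le _, Int.lt_floor_add_one _⟩, ?_⟩
    ext j
    fin_cases j
    · rfl
    · exact hc

/-- the two test directions are not parallel -/
theorem lineAngle_pos : 0 < lineAngle (!₂[1, 1/8] : Plane) (!₂[1, 0] : Plane) := by
  rw [lineAngle, lt_min_iff]
  constructor
  · refine lt_of_le_of_ne (InnerProductGeometry.angle_nonneg _ _) (Ne.symm fun h => ?_)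
    obtain ⟨-, r, hr, h1⟩ := InnerProductGeometry.angle_eq_zero_iff.1 h
    have h2 := congrArg (fun p : Plane => p 1) h1
    simp at h2
    exact hr.ne' h2
  · refine lt_of_le_of_ne (InnerProductGeometry.angle_nonneg _ _) (Ne.symm fun h => ?_)
    obtain ⟨-, r, hr, h1⟩ := InnerProductGeometry.angle_eq_zero_iff.1 h
    have h2 := congrArg (fun p : Plane => p 1) h1
    simp at h2
    exact hr.ne' h2

theorem not_smoothAt (hK : IsClosed K) (hi : interior K = ∅) (hv : volume Kᶜ < 1) {p : Plane}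
    (hp : p 1 ∈ K) (hp2 : ∀ c, c ∉ K → lft K c ≠ p 1) :
    ¬ SmoothAt (ivl : Idx → Set ℝ) (fun i => crv K i.1) p := by
  intro hs
  obtain ⟨N, hN, hpN, -, hN2⟩ := hs _ lineAngle_pos
  obtain ⟨η, hη, hball⟩ := Metric.isOpen_iff.1 hN p hpN
  set y := p 1 with hy
  have key : ∀ ρ > 0, ∃ c, c ∉ K ∧ y < lft K c ∧ rgt K c < y + ρ := by
    intro ρ hρ
    have h1 : ∃ c ∈ Ioo y (y + ρ), c ∉ K := by
      by_contra hcon
      push Not at hcon
      have h2 : Ioo y (y + ρ) ⊆ interior K := interior_maximal hcon isOpen_Ioo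
      rw [hi] at h2
      exact h2 (show y + ρ / 2 ∈ Ioo y (y + ρ) from ⟨by linarith, by linarith⟩)
    obtain ⟨c, hc, hcK⟩ := h1
    have h3 : y ≤ lft K c := le_lft c hp hc.1.le
    have h4 : y < lft K c := lt_of_le_of_ne h3 (Ne.symm (hp2 c hcK))
    have hlc := (lft_mem hK hv c).2
    have h5 : ∃ d ∈ Ioo y (lft K c), d ∉ K := by
      by_contra hcon
      push Not at hcon
      have h2 : Ioo y (lft K c) ⊆ interior K := interior_maximal hcon isOpen_Ioo
      rw [hi] at h2
      exact h2 (show (y + lft K c) / 2 ∈ Ioo y (lft K c) from ⟨by linarith, by linarith⟩)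
    obtain ⟨d, hd, hdK⟩ := h5
    refine ⟨d, hdK, lt_of_le_of_ne (le_lft d hp hd.1.le) (Ne.symm (hp2 d hdK)), ?_⟩
    have h6 : rgt K d ≤ lft K c := rgt_le d (lft_mem hK hv c).1 hd.2.le
    have h7 : lft K c ≤ c := hlc
    linarith [hc.2]
  obtain ⟨c₀, hc₀, hc1, hc2⟩ := key (η / 16) (by linarith)
  set l := lft K c₀ with hl
  set r := rgt K c₀ with hr
  have hl1 := lft_mem hK hv c₀
  have hr1 := rgt_mem hK hv c₀
  have hlc : l < c₀ := lt_of_le_of_ne hl1.2 fun h => hc₀ (h ▸ hl1.1)
  have hcr : c₀ < r := lt_of_le_of_ne hr1.2 fun h => hc₀ (h ▸ hr1.1)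
  set c := (l + r) / 2 with hc
  have hlr : l < r := hlc.trans hcr
  obtain ⟨e1, e2⟩ := gap_eq hK hv (c := c₀) (d := c) (by rw [← hl]; linarith) (by rw [← hr]; linarith)
  have hw : wid K c = r - l := by rw [wid, e1, e2]
  have hw0 : 0 < r - l := sub_pos.2 hlr
  have hamp : amp K c = (r - l) / 8 := by
    rw [amp, hw, e1, e2, ← hl, ← hr, hc]
    field_simp
    ring
  -- the point where the cosine is one
  set w := r - l with hwdef
  set n : ℤ := ⌊p 0 / (2 * Real.pi * w)⌋ with hn
  set t : ℝ := n * (2 * Real.pi) * w with ht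
  have hpi := Real.pi_pos
  have htw : t / w = n * (2 * Real.pi) := by
    rw [ht]; field_simp
  have ht1 : |t - p 0| ≤ 2 * Real.pi * w := by
    have hpos : 0 < 2 * Real.pi * w := by positivity
    have h1 := Int.floor_le (p 0 / (2 * Real.pi * w))
    have h2 := Int.lt_floor_add_one (p 0 / (2 * Real.pi * w))
    rw [← hn] at h1 h2
    rw [le_div_iff₀ hpos] at h1
    rw [div_lt_iff₀ hpos] at h2
    rw [abs_le]
    constructor
    · rw [ht]; nlinarith
    · rw [ht]; nlinarith
  have hsin : Real.sin (t / wid K c) = 0 := by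
    rw [hw, htw]
    have := Real.sin_int_mul_pi (2 * n)
    rw [show (n : ℝ) * (2 * Real.pi) = ((2 * n : ℤ) : ℝ) * Real.pi by push_cast; ring]
    exact this
  have hcos : Real.cos (t / wid K c) = 1 := by
    rw [hw, htw]
    exact Real.cos_int_mul_two_pi n
  have hslope : slope1 K c t = 1 / 8 := by
    rw [slope1, hcos, hamp, hw]
    field_simp
  have hslope0 : slope1 K y (p 0) = 0 := by
    rw [slope1, amp, lft_eq hK hv hp]
    simp
  have hmem1 : crv K c t ∈ N := by
    apply hball
    rw [Metric.mem_ball, EuclideanSpace.dist_eq, Fin.sum_univ_two]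
    have h1 : (crv K c t) 0 = t := rfl
    have h2 : (crv K c t) 1 = c := by
      show leaf K c t = c
      rw [leaf, hsin, mul_zero, add_zero]
    rw [h1, h2, Real.dist_eq, Real.dist_eq, sq_abs, sq_abs]
    rw [Real.sqrt_lt' hη]
    have h3 : w < η / 16 := by rw [hwdef]; linarith
    have h4 : |t - p 0| ≤ η / 2 := by
      refine ht1.trans ?_
      nlinarith [Real.pi_lt_four]
    have h5 : |c - p 1| ≤ η / 2 := by
      rw [abs_le]
      constructor <;> [linarith [hc1, hlr]; linarith [hc2, hlr]]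
    have h6 : (t - p 0) ^ 2 ≤ (η / 2) ^ 2 := sq_le_sq' (by linarith [(abs_le.1 h4).1]) (abs_le.1 h4).2
    have h7 : (c - p 1) ^ 2 ≤ (η / 2) ^ 2 := sq_le_sq' (by linarith [(abs_le.1 h5).1]) (abs_le.1 h5).2
    nlinarith
  have hmem2 : crv K y (p 0) ∈ N := by
    have : crv K y (p 0) = p := by
      ext j
      fin_cases j
      · rfl
      · exact leaf_of_mem hK hv hp _
    rw [this]
    exact hpN
  have hlt := hN2 (c, ⌊t⌋) (y, ⌊p 0⌋) t ⟨Int.floor_le _, Int.lt_floor_add_one _⟩ (p 0)
    ⟨Int.floor_le _, Int.lt_floor_add_one _⟩ hmem1 hmem2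
  simp only at hlt
  rw [derivWithin_crv (i := (c, ⌊t⌋)) ⟨Int.floor_le _, Int.lt_floor_add_one _⟩,
    derivWithin_crv (i := (y, ⌊p 0⌋)) ⟨Int.floor_le _, Int.lt_floor_add_one _⟩] at hlt
  simp only [hslope, hslope0] at hlt
  exact lt_irrefl _ hlt

end

theorem contDiff_crv (K : Set ℝ) (c : ℝ) : ContDiff ℝ ω (crv K c) := by
  rw [contDiff_euclidean]
  intro i
  fin_cases i
  · exact contDiff_id
  · exact contDiff_const.add (contDiff_const.mul (contDiff_id.div_const _).sin)

/-- the set of non-smooth points has infinite measure -/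
theorem exists_covering : ∃ (I : Idx → Set ℝ) (γ : Idx → ℝ → Plane), IsArcCovering I γ 1 ∧
    (∀ i, ContDiff ℝ ω (γ i)) ∧ volume {p : Plane | ¬ SmoothAt I γ p} = ⊤ := by
  obtain ⟨K, hK, hi, hv⟩ := exists_fat
  refine ⟨ivl, fun i => crv K i.1, isArcCovering hK hv, fun i => contDiff_crv K i.1, ?_⟩
  set D : Set ℝ := {y | ∃ c, c ∉ K ∧ lft K c = y} with hD
  have hDc : D.Countable := by
    -- every gap contains a rational number
    have h1 : D ⊆ range fun q : ℚ => lft K (q : ℝ) := by
      rintro y ⟨c, hc, rfl⟩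
      have hl := lft_mem hK hv c
      have hr := rgt_mem hK hv c
      have hlc : lft K c < c := lt_of_le_of_ne hl.2 fun h => hc (h ▸ hl.1)
      obtain ⟨q, hq1, hq2⟩ := exists_rat_btwn hlc
      exact ⟨q, (gap_eq hK hv hq1 (hq2.trans_le hr.2)).1⟩
    exact (countable_range _).mono h1
  set K' : Set ℝ := K \ D with hK'
  have hK'm : MeasurableSet K' := hK.measurableSet.diff hDc.measurableSet
  have hvK : volume K' = ⊤ := by
    have h1 : volume K = ⊤ := by
      by_contra hne
      have h2 : volume (univ : Set ℝ) ≤ volume K + volume Kᶜ := by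
        rw [← union_compl_self K]; exact measure_union_le _ _
      rw [Real.volume_univ] at h2
      exact absurd (top_le_iff.1 h2) (ENNReal.add_ne_top.2 ⟨hne, ne_top_of_lt hv⟩)
    rw [hK', measure_sdiff_null (hDc.measure_zero _), h1]
  have hsub : {p : Plane | p 1 ∈ K'} ⊆
      {p : Plane | ¬ SmoothAt (ivl : Idx → Set ℝ) (fun i => crv K i.1) p} := by
    intro p hp
    exact not_smoothAt hK hi hv hp.1 fun c hc h => hp.2 ⟨c, hc, h⟩
  refine top_le_iff.1 (le_trans (le_of_eq ?_) (measure_mono hsub))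
  -- measure of the strip set
  have hmp := EuclideanSpace.volume_preserving_symm_measurableEquiv_toLp (Fin 2)
  have hmp2 := MeasureTheory.volume_preserving_finTwoArrow ℝ
  have h3 : volume {p : Plane | p 1 ∈ K'} = volume ((univ : Set ℝ) ×ˢ K') := by
    have e1 := (hmp2.comp hmp).measure_preimage
      ((MeasurableSet.univ.prod hK'm).nullMeasurableSet)
    rw [← e1]
    congr 1
    ext p
    simp
  rw [h3, Measure.volume_eq_prod, Measure.prod_prod, hvK, Real.volume_univ]
  simp

end Pool.Agent.V11192.Arcs
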